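import Mathlib

/-!
# Localizations of two subrings of a field at corresponding primes
-/

set_option autoImplicit false

namespace Pool.Agent.Y813.GS

open Function IsLocalRing

section psi

variable {K R : Type} [Field K] [CommRing R] [Algebra R K]

lemma unit_of_notMem (h : Injective (algebraMap R K)) (q : Ideal R) [q.IsPrime]
    (b : q.primeCompl) : IsUnit (algebraMap R K b) := by
  apply IsUnit.mk0
  intro h0
  apply b.2
  have h1 : (b : R) = 0 := h (by rw [h0, map_zero])
  rw [h1]
  exact q.zero_mem

/-- The localization of a subring of a field at a prime as a subring of the field. -/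
noncomputable def psi (h : Injective (algebraMap R K)) (q : Ideal R) [q.IsPrime] :
    Localization.AtPrime q →+* K :=
  IsLocalization.lift (M := q.primeCompl) (unit_of_notMem h q)

variable (h : Injective (algebraMap R K)) (q : Ideal R) [q.IsPrime]

lemma psi_alg (a : R) : psi h q (algebraMap R _ a) = algebraMap R K a :=
  IsLocalization.lift_eq _ _

lemma psi_inj : Injective (psi h q) := by
  unfold psi
  rw [IsLocalization.lift_injective_iff]
  intro x y
  constructor
  · intro e
    have := congrArg (psi h q) e
    rwa [psi_alg, psi_alg] at this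
  · intro e
    rw [h e]

lemma isUnit_alg {b : R} (hb : b ∉ q) : IsUnit (algebraMap R (Localization.AtPrime q) b) :=
  IsLocalization.map_units (Localization.AtPrime q) (⟨b, hb⟩ : q.primeCompl)

lemma alg_mem_max {b : R} (hb : b ∈ q) :
    algebraMap R (Localization.AtPrime q) b ∈ maximalIdeal (Localization.AtPrime q) := by
  rwa [IsLocalization.AtPrime.to_map_mem_maximal_iff (Localization.AtPrime q) q]

lemma mem_range_psi {x : K} (hx : ∃ a b : R, b ∉ q ∧ x * algebraMap R K b = algebraMap R K a) :
    x ∈ (psi h q).range := by
  obtain ⟨a, b, hb, e⟩ := hx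
  obtain ⟨c, hc⟩ := isUnit_alg q hb
  refine ⟨algebraMap R _ a * ((c⁻¹ : (Localization.AtPrime q)ˣ) : Localization.AtPrime q), ?_⟩
  have hb0 : algebraMap R K b ≠ 0 := (unit_of_notMem h q ⟨b, hb⟩).ne_zero
  have h1 : psi h q (algebraMap R _ a * ((c⁻¹ : (Localization.AtPrime q)ˣ) :
      Localization.AtPrime q)) * algebraMap R K b = algebraMap R K a := by
    rw [← psi_alg h q b, ← hc, ← map_mul, mul_assoc, Units.inv_mul, mul_one, psi_alg]
  rw [← e] at h1
  exact mul_right_cancel₀ hb0 h1

end psi

/-- The key lemma: if `R'` lies in the localization of `R` at `q` and the elements of `R` are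
fractions of elements of `R'` with denominators which are units there, then this localization is
the localization of `R'` at a prime. -/
theorem key {K R R' : Type} [Field K] [CommRing R] [Algebra R K] [CommRing R'] [Algebra R' K]
    (h : Injective (algebraMap R K)) (h' : Injective (algebraMap R' K)) (q : Ideal R) [q.IsPrime]
    (h1 : ∀ y : R', algebraMap R' K y ∈ (psi h q).range)
    (h2 : ∀ a : R, ∃ y w : R', (∃ c d : R, c ∉ q ∧ d ∉ q ∧
      algebraMap R' K w * algebraMap R K d = algebraMap R K c) ∧
      algebraMap R K a * algebraMap R' K w = algebraMap R' K y) :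
    ∃ (q' : Ideal R') (_ : q'.IsPrime) (e : Localization.AtPrime q' ≃+* Localization.AtPrime q),
      (∀ y : R', psi h q (e (algebraMap R' _ y)) = algebraMap R' K y) ∧
      ∀ y : R', e (algebraMap R' _ y) ∈ maximalIdeal (Localization.AtPrime q) → y ∈ q' := by
  classical
  have hinj := psi_inj h q
  have hex : ∃ φ : R' →+* Localization.AtPrime q, ∀ y, psi h q (φ y) = algebraMap R' K y := by
    let E : Localization.AtPrime q ≃+* (psi h q).range :=
      RingEquiv.ofBijective (psi h q).rangeRestrict
        ⟨fun x y e => hinj (by simpa using congrArg Subtype.val e),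
          (psi h q).rangeRestrict_surjective⟩
    refine ⟨(E.symm : (psi h q).range →+* Localization.AtPrime q).comp
      ((algebraMap R' K).codRestrict _ h1), fun y => ?_⟩
    have h3 : psi h q (E.symm ((algebraMap R' K).codRestrict _ h1 y)) =
        ((E (E.symm ((algebraMap R' K).codRestrict _ h1 y)) : (psi h q).range) : K) := rfl
    rw [E.apply_symm_apply] at h3
    exact h3
  obtain ⟨φ, hφ⟩ := hex
  have hφi : Injective φ := by
    intro x y e
    apply h'
    rw [← hφ, ← hφ, e]
  let q' : Ideal R' := (maximalIdeal (Localization.AtPrime q)).comap φ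
  have hq' : q'.IsPrime := Ideal.comap_isPrime φ _
  let _ : Algebra R' (Localization.AtPrime q) := φ.toAlgebra
  have halg : ∀ y : R', algebraMap R' (Localization.AtPrime q) y = φ y := fun _ => rfl
  have hunit : ∀ w : R', (∃ c d : R, c ∉ q ∧ d ∉ q ∧
      algebraMap R' K w * algebraMap R K d = algebraMap R K c) → IsUnit (φ w) := by
    rintro w ⟨c, d, hc, hd, e⟩
    have e2 : φ w * algebraMap R (Localization.AtPrime q) d = algebraMap R _ c := by
      apply hinj
      rw [map_mul, hφ, psi_alg, psi_alg, e]
    exact isUnit_of_mul_isUnit_left (e2 ▸ isUnit_alg q hc)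
  have hmem : ∀ w : R', w ∉ q' ↔ IsUnit (φ w) := by
    intro w
    have : w ∈ q' ↔ φ w ∈ maximalIdeal (Localization.AtPrime q) := Iff.rfl
    rw [this, mem_maximalIdeal, mem_nonunits_iff, not_not]
  have : IsLocalization.AtPrime (Localization.AtPrime q) q' := by
    refine ⟨?_, ?_, ?_⟩
    · rintro ⟨w, hw⟩
      exact (hmem w).1 hw
    · intro x
      obtain ⟨a, b, rfl⟩ := IsLocalization.exists_mk'_eq q.primeCompl x
      obtain ⟨y1, w1, hw1, e1⟩ := h2 a
      obtain ⟨y2, w2, hw2, e2⟩ := h2 b
      have hu1 := hunit w1 hw1
      have hu2 := hunit w2 hw2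
      have f1 : algebraMap R (Localization.AtPrime q) a * φ w1 = φ y1 := by
        apply hinj
        rw [map_mul, hφ, hφ, psi_alg, e1]
      have f2 : algebraMap R (Localization.AtPrime q) b * φ w2 = φ y2 := by
        apply hinj
        rw [map_mul, hφ, hφ, psi_alg, e2]
      have hy2 : IsUnit (φ y2) := by
        rw [← f2]
        exact (isUnit_alg q b.2).mul hu2
      refine ⟨(y1 * w2, ⟨y2 * w1, ?_⟩), ?_⟩
      · change y2 * w1 ∉ q'
        rw [hmem, map_mul]
        exact hy2.mul hu1
      · change _ * φ (y2 * w1) = φ (y1 * w2)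
        rw [map_mul, map_mul, ← f1, ← f2]
        have := IsLocalization.mk'_spec (Localization.AtPrime q) a b
        calc IsLocalization.mk' (Localization.AtPrime q) a b *
              (algebraMap R (Localization.AtPrime q) b * φ w2 * φ w1)
            = (IsLocalization.mk' (Localization.AtPrime q) a b *
              algebraMap R (Localization.AtPrime q) b) * (φ w2 * φ w1) := by ring
          _ = algebraMap R (Localization.AtPrime q) a * φ w1 * φ w2 := by rw [this]; ring
    · intro x y e
      exact ⟨1, by rw [hφi e]⟩
  let e := IsLocalization.algEquiv q'.primeCompl (Localization.AtPrime q')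
    (Localization.AtPrime q)
  have he : ∀ y : R', e (algebraMap R' _ y) = φ y := fun y => e.commutes y
  refine ⟨q', hq', e.toRingEquiv, fun y => ?_, fun y hy => ?_⟩
  · change psi h q (e (algebraMap R' _ y)) = _
    rw [he, hφ]
  · have : e (algebraMap R' _ y) ∈ maximalIdeal (Localization.AtPrime q) := hy
    rw [he] at this
    exact this

end Pool.Agent.Y813.GS
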