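import Pool.Agent.Y223.G.Stm3
import Pool.Agent.Y813.GS.Key

/-!
# G3-SMAF: the charts of forms are smooth
-/

set_option autoImplicit false

namespace Pool.Agent.Y813.GS

open Function IsLocalRing Pool.Agent.Y223.G

section forms

variable {K : Type} [Field K] {m : ℕ} (z : Fin (m + 1) → K)

lemma MN_mul {d e : ℕ} {x y : K} (hx : x ∈ MN z d) (hy : y ∈ MN z e) : x * y ∈ MN z (d + e) := by
  obtain ⟨a, ha, rfl⟩ := hx
  obtain ⟨b, hb, rfl⟩ := hy
  refine ⟨fun i => a i + b i, ?_, ?_⟩
  · rw [Finset.sum_add_distrib, ha, hb]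
  · rw [← Finset.prod_mul_distrib]
    exact Finset.prod_congr rfl fun i _ => (pow_add _ _ _).symm

lemma MN_pow_z (i : Fin (m + 1)) (d : ℕ) : z i ^ d ∈ MN z d := by
  classical
  refine ⟨fun j => if j = i then d else 0, ?_, ?_⟩
  · rw [Finset.sum_ite_eq' Finset.univ i]
    rw [if_pos (Finset.mem_univ i)]
  · rw [Finset.prod_eq_single i]
    · change z i ^ d = z i ^ (if i = i then d else 0)
      rw [if_pos rfl]
    · intro j _ hj
      change z j ^ (if j = i then d else 0) = 1
      rw [if_neg hj, pow_zero]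
    · intro h
      exact absurd (Finset.mem_univ i) h

variable {O : Type} [CommRing O] [Algebra O K]

lemma MN_mem_AF {d : ℕ} {F x : K} (hx : x ∈ MN z d) : x / F ∈ AF O z d F :=
  Algebra.subset_adjoin ⟨x, hx, rfl⟩

lemma MN_div_mem (i : Fin (m + 1)) {d : ℕ} {x : K} (hx : x ∈ MN z d) :
    x / z i ^ d ∈ AZ O z i := by
  obtain ⟨a, ha, rfl⟩ := hx
  have h1 : (∏ j, z j ^ a j) / z i ^ d = ∏ j, (z j / z i) ^ a j := by
    rw [← ha, ← Finset.prod_pow_eq_pow_sum, ← Finset.prod_div_distrib]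
    exact Finset.prod_congr rfl fun j _ => (div_pow _ _ _).symm
  have h2 : ∀ j, z j / z i ∈ AZ O z i := fun j => Algebra.subset_adjoin ⟨j, rfl⟩
  rw [h1]
  exact Subalgebra.prod_mem _ fun j _ => Subalgebra.pow_mem _ (h2 j) _

variable {k : Type} [CommRing k] [Algebra k K]

/-- Forms with coefficients in `k`. -/
lemma FS_div_mem' [Algebra k O] [IsScalarTower k O K] (i : Fin (m + 1)) {d : ℕ} {x : K}
    (hx : x ∈ FS k z d) : x / z i ^ d ∈ AZ O z i := by
  unfold FS at hx
  induction hx using Submodule.span_induction with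
  | mem x hx => exact MN_div_mem z i hx
  | zero => rw [zero_div]; exact Subalgebra.zero_mem _
  | add a b _ _ ha hb => rw [add_div]; exact Subalgebra.add_mem _ ha hb
  | smul c a _ ha =>
    rw [Algebra.smul_def, mul_div_assoc, IsScalarTower.algebraMap_apply k O K]
    exact Subalgebra.mul_mem _ (Subalgebra.algebraMap_mem _ _) ha

/-- One of the quotients `z_i ^ d / F` does not lie in a given prime. -/
lemma exists_notMem {B : Type} [CommRing B] [Algebra B K] (hB : ∀ c : k, ∃ b : B,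
    algebraMap B K b = algebraMap k K c) {d : ℕ} (hd : 1 ≤ d) {F : K} (hF : F ∈ FS k z d)
    (hF0 : F ≠ 0) (Q : Ideal (AF B z d F)) [hQ : Q.IsPrime] :
    ∃ i, (⟨z i ^ d / F, MN_mem_AF z (MN_pow_z z i d)⟩ : AF B z d F) ∉ Q := by
  classical
  by_contra hcon
  push Not at hcon
  have h1 : ∀ x ∈ MN z d, ∃ h : x / F ∈ AF B z d F, (⟨x / F, h⟩ : AF B z d F) ∈ Q := by
    rintro x hx
    have hxF : x / F ∈ AF B z d F := MN_mem_AF z hx
    refine ⟨hxF, ?_⟩
    obtain ⟨a, ha, rfl⟩ := hx
    apply hQ.mem_of_pow_mem d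
    have h2 : (⟨_, hxF⟩ : AF B z d F) ^ d =
        ∏ i, (⟨z i ^ d / F, MN_mem_AF z (MN_pow_z z i d)⟩ : AF B z d F) ^ a i := by
      apply Subtype.ext
      change ((∏ i, z i ^ a i) / F) ^ d = ((AF B z d F).val)
        (∏ i, (⟨z i ^ d / F, MN_mem_AF z (MN_pow_z z i d)⟩ : AF B z d F) ^ a i)
      rw [map_prod]
      have h3 : ∀ i, (AF B z d F).val
          ((⟨z i ^ d / F, MN_mem_AF z (MN_pow_z z i d)⟩ : AF B z d F) ^ a i) =
          (z i ^ a i) ^ d / F ^ a i := by
        intro i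
        change (z i ^ d / F) ^ a i = _
        rw [div_pow, ← pow_mul, ← pow_mul, mul_comm d]
      rw [Finset.prod_congr rfl fun i _ => h3 i, Finset.prod_div_distrib, Finset.prod_pow,
        Finset.prod_pow_eq_pow_sum, ha, div_pow]
    rw [h2]
    obtain ⟨i, hi⟩ : ∃ i, a i ≠ 0 := by
      by_contra hcon2
      push Not at hcon2
      have : ∑ i, a i = 0 := Finset.sum_eq_zero fun i _ => hcon2 i
      omega
    rw [← Finset.mul_prod_erase _ _ (Finset.mem_univ i)]
    exact Q.mul_mem_right _ (Ideal.pow_mem_of_mem _ (hcon i) _ (Nat.pos_of_ne_zero hi))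
  have h2 : ∀ x ∈ FS k z d, ∃ h : x / F ∈ AF B z d F, (⟨x / F, h⟩ : AF B z d F) ∈ Q := by
    intro x hx
    unfold FS at hx
    induction hx using Submodule.span_induction with
    | mem x hx => exact h1 x hx
    | zero =>
      refine ⟨by rw [zero_div]; exact Subalgebra.zero_mem _, ?_⟩
      have h3 : ∀ h : (0 : K) / F ∈ AF B z d F, (⟨0 / F, h⟩ : AF B z d F) = 0 :=
        fun _ => Subtype.ext (zero_div F)
      rw [h3]
      exact Q.zero_mem
    | add a b _ _ ha hb =>
      obtain ⟨ha1, ha2⟩ := ha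
      obtain ⟨hb1, hb2⟩ := hb
      refine ⟨by rw [add_div]; exact Subalgebra.add_mem _ ha1 hb1, ?_⟩
      have h3 : ∀ h : (a + b) / F ∈ AF B z d F, (⟨(a + b) / F, h⟩ : AF B z d F) =
          ⟨a / F, ha1⟩ + ⟨b / F, hb1⟩ := fun _ => Subtype.ext (add_div _ _ _)
      rw [h3]
      exact Q.add_mem ha2 hb2
    | smul c a _ ha =>
      obtain ⟨ha1, ha2⟩ := ha
      obtain ⟨b, hb⟩ := hB c
      have h4 : (c • a) / F = algebraMap B K b * (a / F) := by
        rw [Algebra.smul_def, mul_div_assoc, hb]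
      refine ⟨by rw [h4]; exact Subalgebra.mul_mem _ (Subalgebra.algebraMap_mem _ _) ha1, ?_⟩
      have h3 : ∀ h : (c • a) / F ∈ AF B z d F, (⟨(c • a) / F, h⟩ : AF B z d F) =
          algebraMap B (AF B z d F) b * ⟨a / F, ha1⟩ := fun _ => Subtype.ext h4
      rw [h3]
      exact Q.mul_mem_left _ ha2
  obtain ⟨h3, h4⟩ := h2 F hF
  apply hQ.ne_top
  rw [Ideal.eq_top_iff_one]
  have h5 : (⟨F / F, h3⟩ : AF B z d F) = 1 := Subtype.ext (div_self hF0)
  rwa [h5] at h4

end forms

section smaf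

variable {k O K : Type} [CommRing k] [CommRing O] [Field K] [Algebra k O] [Algebra O K]
  [Algebra k K] [IsScalarTower k O K] (s : k)

lemma mem_OL (o : O) : algebraMap O K o ∈ OL O (K := K) s := ⟨0, o, by rw [pow_zero, one_mul]⟩

/-- The structure map of the localization of the base. -/
noncomputable def oM : O →+* OL O (K := K) s := (algebraMap O K).codRestrict _ (mem_OL s)

lemma inv_mem_OL {s : k} (hs : algebraMap k K s ≠ 0) (n : ℕ) :
    (algebraMap k K s ^ n)⁻¹ ∈ OL O (K := K) s :=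
  ⟨n, 1, by rw [mul_inv_cancel₀ (pow_ne_zero _ hs), map_one]⟩

lemma smaf_aux (hinj : Injective (algebraMap O K)) (hs : algebraMap k K s ≠ 0) {m : ℕ}
    (z : Fin (m + 1) → K) (hz : ∀ j, z j ≠ 0) (S : Set O)
    (hsm : ∀ j (q : Ideal (AZ O z j)) [q.IsPrime], (∀ e ∈ S, algebraMap O (AZ O z j) e ∈ q) →
      Algebra.IsSmoothAt O q) {d : ℕ} {F : K} (hd : 1 ≤ d) (hF : F ∈ FS k z d) (hF0 : F ≠ 0)
    (A : Subalgebra (OL O (K := K) s) K) (hA : A = AF (OL O (K := K) s) z d F)
    (q : Ideal A) [hq : q.IsPrime] (hSq : ∀ e ∈ S, ∀ h : algebraMap O K e ∈ A,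
      (⟨algebraMap O K e, h⟩ : A) ∈ q) (i : Fin (m + 1)) (huA : z i ^ d / F ∈ A)
    (hi : (⟨z i ^ d / F, huA⟩ : A) ∉ q) : Algebra.IsSmoothAt (OL O (K := K) s) q := by
  classical
  have hAinj : Injective (algebraMap A K) := Subtype.val_injective
  have hOA : ∀ o : O, algebraMap O K o ∈ A := fun o =>
    A.algebraMap_mem (⟨algebraMap O K o, mem_OL s o⟩ : OL O (K := K) s)
  have hzd : z i ^ d ≠ 0 := pow_ne_zero _ (hz i)
  let u : A := ⟨z i ^ d / F, huA⟩
  have hu1 : (algebraMap A K u) = z i ^ d / F := rfl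
  have hR'inj : Injective (algebraMap (AZ O z i) K) := Subtype.val_injective
  have hone : (1 : A) ∉ q := fun h => hq.ne_top ((Ideal.eq_top_iff_one q).2 h)
  -- the first inclusion
  have h1 : ∀ y : AZ O z i, algebraMap (AZ O z i) K y ∈ (psi hAinj q).range := by
    rintro ⟨y, hy⟩
    change y ∈ (psi hAinj q).range
    unfold AZ at hy
    induction hy using Algebra.adjoin_induction with
    | mem y hy =>
      obtain ⟨j, rfl⟩ := hy
      have hm : z j * z i ^ (d - 1) ∈ MN z d := by
        have h2 := MN_mul z (MN_pow_z z j 1) (MN_pow_z z i (d - 1))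
        rw [pow_one, Nat.add_sub_cancel' hd] at h2
        exact h2
      apply mem_range_psi
      refine ⟨⟨z j * z i ^ (d - 1) / F, by rw [hA]; exact MN_mem_AF z hm⟩, u, hi, ?_⟩
      change z j / z i * (z i ^ d / F) = z j * z i ^ (d - 1) / F
      obtain ⟨c, rfl⟩ := Nat.exists_eq_add_of_le hd
      rw [Nat.add_sub_cancel_left, pow_add, pow_one]
      have := hz i
      field_simp
    | algebraMap o =>
      apply mem_range_psi
      refine ⟨⟨algebraMap O K o, hOA o⟩, 1, hone, ?_⟩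
      rw [map_one, mul_one]; rfl
    | add x y _ _ hx hy => exact Subring.add_mem _ hx hy
    | mul x y _ _ hx hy => exact Subring.mul_mem _ hx hy
  -- the second inclusion
  have h2 : ∀ a : A, ∃ y w : AZ O z i, (∃ c d : A, c ∉ q ∧ d ∉ q ∧
      algebraMap (AZ O z i) K w * algebraMap A K d = algebraMap A K c) ∧
      algebraMap A K a * algebraMap (AZ O z i) K w = algebraMap (AZ O z i) K y := by
    rintro ⟨a, ha⟩
    change ∃ y w : AZ O z i, (∃ c d : A, c ∉ q ∧ d ∉ q ∧
      algebraMap (AZ O z i) K w * algebraMap A K d = algebraMap A K c) ∧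
      a * algebraMap (AZ O z i) K w = algebraMap (AZ O z i) K y
    rw [hA] at ha
    unfold AF at ha
    induction ha using Algebra.adjoin_induction with
    | mem a ha =>
      obtain ⟨x, hx, rfl⟩ := ha
      refine ⟨⟨x / z i ^ d, MN_div_mem z i hx⟩, ⟨F / z i ^ d, FS_div_mem' z i hF⟩,
        ⟨1, u, hone, hi, ?_⟩, ?_⟩
      · rw [map_one, hu1]
        change F / z i ^ d * (z i ^ d / F) = 1
        field_simp
      · change x / F * (F / z i ^ d) = x / z i ^ d
        field_simp
    | algebraMap r =>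
      obtain ⟨r, n, y, hr⟩ := r
      have hinvA : (algebraMap k K s ^ n)⁻¹ ∈ A :=
        A.algebraMap_mem (⟨_, inv_mem_OL hs n⟩ : OL O (K := K) s)
      refine ⟨algebraMap O _ y, algebraMap O _ (algebraMap k O s) ^ n,
        ⟨1, ⟨_, hinvA⟩, hone, ?_, ?_⟩, ?_⟩
      · intro hmem
        apply hone
        have h3 : (1 : A) = ⟨_, hOA (algebraMap k O s ^ n)⟩ * ⟨_, hinvA⟩ := by
          apply Subtype.ext
          change (1 : K) = algebraMap O K (algebraMap k O s ^ n) * (algebraMap k K s ^ n)⁻¹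
          rw [map_pow, ← IsScalarTower.algebraMap_apply k O K,
            mul_inv_cancel₀ (pow_ne_zero _ hs)]
        rw [h3]
        exact q.mul_mem_left _ hmem
      · rw [map_one, map_pow]
        change algebraMap O K (algebraMap k O s) ^ n * (algebraMap k K s ^ n)⁻¹ = 1
        rw [← IsScalarTower.algebraMap_apply k O K, mul_inv_cancel₀ (pow_ne_zero _ hs)]
      · rw [map_pow]
        change r * algebraMap O K (algebraMap k O s) ^ n = algebraMap O K y
        rw [← IsScalarTower.algebraMap_apply k O K, mul_comm, hr]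
    | add x y _ _ hx hy =>
      obtain ⟨y1, w1, ⟨c1, d1, hc1, hd1, e1⟩, f1⟩ := hx
      obtain ⟨y2, w2, ⟨c2, d2, hc2, hd2, e2⟩, f2⟩ := hy
      refine ⟨y1 * w2 + y2 * w1, w1 * w2, ⟨c1 * c2, d1 * d2, ?_, ?_, ?_⟩, ?_⟩
      · exact fun h => (hq.mem_or_mem h).elim hc1 hc2
      · exact fun h => (hq.mem_or_mem h).elim hd1 hd2
      · rw [map_mul, map_mul, map_mul, ← e1, ← e2]; ring
      · rw [map_mul, map_add, map_mul, map_mul, ← f1, ← f2]; ring
    | mul x y _ _ hx hy =>
      obtain ⟨y1, w1, ⟨c1, d1, hc1, hd1, e1⟩, f1⟩ := hx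
      obtain ⟨y2, w2, ⟨c2, d2, hc2, hd2, e2⟩, f2⟩ := hy
      refine ⟨y1 * y2, w1 * w2, ⟨c1 * c2, d1 * d2, ?_, ?_, ?_⟩, ?_⟩
      · exact fun h => (hq.mem_or_mem h).elim hc1 hc2
      · exact fun h => (hq.mem_or_mem h).elim hd1 hd2
      · rw [map_mul, map_mul, map_mul, ← e1, ← e2]; ring
      · rw [map_mul, map_mul, ← f1, ← f2]; ring
  obtain ⟨q', hq', e, he1, he2⟩ := key hAinj hR'inj q h1 h2
  have hpinj := psi_inj hAinj q
  -- the ideal contains the elements of `S`
  have hSq' : ∀ x ∈ S, algebraMap O (AZ O z i) x ∈ q' := by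
    intro x hx
    apply he2
    have h3 : e (algebraMap (AZ O z i) _ (algebraMap O (AZ O z i) x)) =
        algebraMap A _ ⟨algebraMap O K x, hOA x⟩ := by
      apply hpinj
      rw [he1, psi_alg]
      rfl
    rw [h3]
    exact alg_mem_max q (hSq x hx (hOA x))
  have hsm' := hsm i q' hSq'
  -- the algebra structures
  let _ : Algebra O (OL O (K := K) s) := (oM s).toAlgebra
  have hoM : ∀ o : O, ((algebraMap O (OL O (K := K) s) o : OL O (K := K) s) : K) =
      algebraMap O K o := fun _ => rfl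
  let _ : Algebra O (Localization.AtPrime q) :=
    ((algebraMap (OL O (K := K) s) (Localization.AtPrime q)).comp (oM s)).toAlgebra
  have hst : IsScalarTower O (OL O (K := K) s) (Localization.AtPrime q) :=
    IsScalarTower.of_algebraMap_eq fun _ => rfl
  have hpo : ∀ x : OL O (K := K) s, psi hAinj q (algebraMap _ _ x) = (x : K) := by
    intro x
    rw [IsScalarTower.algebraMap_apply (OL O (K := K) s) A (Localization.AtPrime q), psi_alg]
    rfl
  let e' : Localization.AtPrime q' ≃ₐ[O] Localization.AtPrime q :=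
    AlgEquiv.ofRingEquiv (f := e) (by
      intro o
      apply hpinj
      rw [IsScalarTower.algebraMap_apply O (AZ O z i) (Localization.AtPrime q'), he1,
        IsScalarTower.algebraMap_apply O (OL O (K := K) s) (Localization.AtPrime q), hpo]
      rfl)
  have hfs : Algebra.FormallySmooth O (Localization.AtPrime q') := hsm'
  have hfs2 : Algebra.FormallySmooth O (Localization.AtPrime q) :=
    Algebra.FormallySmooth.of_equiv e'
  have hloc : IsLocalization (Submonoid.powers (algebraMap k O s)) (OL O (K := K) s) := by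
    refine ⟨?_, ?_, ?_⟩
    · rintro ⟨_, n, rfl⟩
      refine IsUnit.of_mul_eq_one ⟨_, inv_mem_OL hs n⟩ ?_
      apply Subtype.ext
      change algebraMap O K (algebraMap k O s ^ n) * (algebraMap k K s ^ n)⁻¹ = 1
      rw [map_pow, ← IsScalarTower.algebraMap_apply k O K, mul_inv_cancel₀ (pow_ne_zero _ hs)]
    · rintro ⟨x, n, y, hx⟩
      refine ⟨(y, ⟨algebraMap k O s ^ n, n, rfl⟩), ?_⟩
      apply Subtype.ext
      change x * algebraMap O K (algebraMap k O s ^ n) = algebraMap O K y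
      rw [map_pow, ← IsScalarTower.algebraMap_apply k O K, mul_comm, hx]
    · intro x y hxy
      refine ⟨1, ?_⟩
      have h3 : algebraMap O K x = algebraMap O K y := congrArg Subtype.val hxy
      rw [hinj h3]
  exact Algebra.FormallySmooth.localization_base (Submonoid.powers (algebraMap k O s))

/-- **G3-SMAF.** -/
theorem t_SMAF : S_SMAF := by
  intro k O K _ _ _ _ _ _ _ _ hinj s hs m z hz S hsm d F hd hF hF0 q hq hSq
  obtain ⟨i, hi⟩ := exists_notMem (k := k) (B := OL O (K := K) s) z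
    (fun c => ⟨algebraMap k _ c, rfl⟩) hd hF hF0 q
  exact smaf_aux s hinj hs z hz S hsm hd hF hF0 _ rfl q hSq i _ hi

end smaf

end Pool.Agent.Y813.GS
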